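import Pool.Agent.H929.BW.Stm

set_option autoImplicit false

namespace Pool.Agent.H729.BW

open Finset Pool.Agent.TH3.IR Pool.Agent.Y55.Col Pool.Agent.H929.BW

lemma cle_emp (n t m d : ℕ) (ht : 1 ≤ t) (h : Pool.Agent.K7.H43.PT.CT (n + 1) t m d)
    (hd : (d + (n + 1)).choose (n + 1) ≤ t ^ (n + 1) * (m + n).choose (n + 1)) :
    Emp (n + 1) (d + 1) (Multiset.replicate (t ^ (n + 1)) m) := by
  have h1 := Pool.Agent.Y55.Col.emp_of_general _
      (Pool.Agent.K7.H43.PT.uniform_zeroT n t m d ht h hd)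
  rw [Multiset.map_const', Finset.card_val, Finset.card_univ, Fintype.card_fin] at h1
  exact h1

lemma cle_choose (n t m d : ℕ)
    (h : ∏ i ∈ range (n + 1), (d + 1 + i) ≤ t ^ (n + 1) * ∏ i ∈ range (n + 1), (m + i)) :
    (d + (n + 1)).choose (n + 1) ≤ t ^ (n + 1) * (m + n).choose (n + 1) := by
  have h1 := Nat.ascFactorial_eq_factorial_mul_choose d (n + 1)
  have h2 := Nat.ascFactorial_eq_factorial_mul_choose' m (n + 1)
  rw [Nat.ascFactorial_eq_prod_range] at h1 h2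
  have h3 : m + (n + 1) - 1 = m + n := by omega
  rw [h3] at h2
  rw [h1, h2] at h
  have h4 : 0 < (n + 1).factorial := Nat.factorial_pos _
  have h5 : (n + 1).factorial * (d + (n + 1)).choose (n + 1) ≤
      (n + 1).factorial * (t ^ (n + 1) * (m + n).choose (n + 1)) := by
    calc _ ≤ _ := h
      _ = _ := by ring
  exact Nat.le_of_mul_le_mul_left h5 h4

lemma cle_low (n t m : ℕ) (ht : 1 ≤ t) (hm : 1 ≤ m) :
    Emp (n + 1) (t * m) (Multiset.replicate (t ^ (n + 1)) m) := by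
  have h0 : 0 < t * m := Nat.mul_pos ht hm
  obtain ⟨d, hd⟩ : ∃ d, t * m = d + 1 := ⟨t * m - 1, by omega⟩
  rw [hd]
  refine cle_emp n t m d ht (Or.inl (Or.inl (Or.inr (Or.inl (by omega))))) ?_
  refine cle_choose n t m d ?_
  rw [← hd]
  have h1 : t ^ (n + 1) * ∏ i ∈ range (n + 1), (m + i) = ∏ i ∈ range (n + 1), (t * (m + i)) := by
    rw [Finset.prod_mul_distrib, Finset.prod_const, Finset.card_range]
  rw [h1]
  refine Finset.prod_le_prod' fun i _ => ?_
  have h2 : i ≤ t * i := Nat.le_mul_of_pos_left i ht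
  have h3 : t * (m + i) = t * m + t * i := by ring
  omega

lemma cle_sq (N : ℕ) (f : ℕ → ℝ) :
    (∏ i ∈ range N, f i) ^ 2 = ∏ i ∈ range N, (f i * f (N - 1 - i)) := by
  rw [Finset.prod_mul_distrib, Finset.prod_range_reflect, sq]

lemma cle_prod (n t m c e : ℕ) (hm : 1 ≤ m) (h1 : 2 * c + (n + 2) + e = n * t)
    (h2 : n ^ 2 * t ≤ e * m) :
    ∏ i ∈ range (n + 1), (t * m + c + 1 + i) ≤ t ^ (n + 1) * ∏ i ∈ range (n + 1), (m + i) := by
  have e1 : (2 : ℝ) * c + (n + 2) + e = n * t := by exact_mod_cast h1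
  have e2 : (n : ℝ) ^ 2 * t ≤ e * m := by exact_mod_cast h2
  have hen : (e : ℝ) ≤ n * t := by
    have : (0 : ℝ) ≤ c := Nat.cast_nonneg c
    have : (0 : ℝ) ≤ n := Nat.cast_nonneg n
    linarith
  have c0 : (0 : ℝ) ≤ c := Nat.cast_nonneg c
  have n0 : (0 : ℝ) ≤ n := Nat.cast_nonneg n
  have t0 : (0 : ℝ) ≤ t := Nat.cast_nonneg t
  have e0 : (0 : ℝ) ≤ e := Nat.cast_nonneg e
  have m0 : (0 : ℝ) ≤ m := Nat.cast_nonneg m
  set D : ℝ := t * m + c + (n + 2) / 2 with hD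
  have hD2 : D ^ 2 ≤ (t : ℝ) ^ 2 * (m * (m + n)) := by
    have h3 : D = (2 * t * m + n * t - e) / 2 := by rw [hD]; linarith
    rw [h3]
    have h4 : (e : ℝ) * e ≤ e * (n * t) := mul_le_mul_of_nonneg_left hen e0
    have h5 : (n : ℝ) ^ 2 * t * t ≤ e * m * t := mul_le_mul_of_nonneg_right e2 t0
    have h6 : 0 ≤ (e : ℝ) * n * t := by positivity
    have h7 : 0 ≤ (e : ℝ) * m * t := by positivity
    nlinarith
  have hP : (∏ i ∈ range (n + 1), ((t : ℝ) * m + c + 1 + i)) ^ 2 ≤ (D ^ 2) ^ (n + 1) := by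
    rw [cle_sq]
    have h3 : (D ^ 2) ^ (n + 1) = ∏ _i ∈ range (n + 1), D ^ 2 := by
      rw [Finset.prod_const, Finset.card_range]
    rw [h3]
    refine Finset.prod_le_prod (fun i _ => by positivity) fun i hi => ?_
    have hi' : i ≤ n := by
      have := Finset.mem_range.1 hi
      omega
    have h4 : ((n + 1 - 1 - i : ℕ) : ℝ) = n - i := by
      rw [Nat.add_sub_cancel, Nat.cast_sub hi']
    rw [h4, hD]
    nlinarith [sq_nonneg ((n : ℝ) - 2 * i)]
  have hQ : ((m : ℝ) * (m + n)) ^ (n + 1) ≤ (∏ i ∈ range (n + 1), ((m : ℝ) + i)) ^ 2 := by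
    rw [cle_sq]
    have h3 : ((m : ℝ) * (m + n)) ^ (n + 1) = ∏ _i ∈ range (n + 1), ((m : ℝ) * (m + n)) := by
      rw [Finset.prod_const, Finset.card_range]
    rw [h3]
    refine Finset.prod_le_prod (fun i _ => by positivity) fun i hi => ?_
    have hi' : i ≤ n := by
      have := Finset.mem_range.1 hi
      omega
    have h4 : ((n + 1 - 1 - i : ℕ) : ℝ) = n - i := by
      rw [Nat.add_sub_cancel, Nat.cast_sub hi']
    have h5 : (i : ℝ) ≤ n := by exact_mod_cast hi'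
    have h6 : (0 : ℝ) ≤ i := Nat.cast_nonneg i
    rw [h4]
    nlinarith [mul_nonneg h6 (sub_nonneg.2 h5)]
  have hfin : (∏ i ∈ range (n + 1), ((t : ℝ) * m + c + 1 + i)) ^ 2 ≤
      ((t : ℝ) ^ (n + 1) * ∏ i ∈ range (n + 1), ((m : ℝ) + i)) ^ 2 := by
    calc _ ≤ (D ^ 2) ^ (n + 1) := hP
      _ ≤ ((t : ℝ) ^ 2 * (m * (m + n))) ^ (n + 1) := pow_le_pow_left₀ (sq_nonneg D) hD2 _
      _ = ((t : ℝ) ^ (n + 1)) ^ 2 * (m * (m + n)) ^ (n + 1) := by
        rw [mul_pow, ← pow_mul, ← pow_mul, Nat.mul_comm]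
      _ ≤ ((t : ℝ) ^ (n + 1)) ^ 2 * (∏ i ∈ range (n + 1), ((m : ℝ) + i)) ^ 2 :=
        mul_le_mul_of_nonneg_left hQ (by positivity)
      _ = _ := by ring
  have h8 : (∏ i ∈ range (n + 1), ((t : ℝ) * m + c + 1 + i)) ≤
      (t : ℝ) ^ (n + 1) * ∏ i ∈ range (n + 1), ((m : ℝ) + i) :=
    le_of_sq_le_sq hfin (by positivity)
  exact_mod_cast h8

lemma cle_high (n t m c e : ℕ) (hn : 1 ≤ n) (ht : 1 ≤ t) (hm : 1 ≤ m)
    (h1 : 2 * c + (n + 2) + e = n * t) (hm0 : 3 * n ^ 2 ≤ m)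
    (h2 : 3 * n ^ 3 * t + 3 * n ^ 2 * m ≤ e * m) :
    Emp (n + 1) (t * m + c + 1) (Multiset.replicate (t ^ (n + 1)) m) := by
  have hq : 2 * (c / t) ≤ n := by
    have h3 : t * (c / t) ≤ c := Nat.mul_div_le c t
    have h4 : t * (2 * (c / t)) ≤ t * n := by
      have : t * (2 * (c / t)) = 2 * (t * (c / t)) := by ring
      rw [this, Nat.mul_comm t n]
      omega
    exact Nat.le_of_mul_le_mul_left h4 ht
  refine cle_emp n t m (t * m + c) ht (Or.inr (Or.inr (Or.inr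
    ⟨c, t ^ n * e / (3 * n ^ 2), rfl, ?_, ?_, ?_⟩))) ?_
  · rw [Nat.add_sub_cancel]
    omega
  · rw [Nat.add_sub_cancel]
    set s := t ^ n * e / (3 * n ^ 2) with hs
    have h3 : 3 * n ^ 2 * s ≤ t ^ n * e := Nat.mul_div_le _ _
    have h4 : n * t - (2 * c + (n + 1) + 1) = e := by omega
    rw [h4]
    refine le_trans ?_ h3
    have h5 : 2 * n * (n + c / t) * s = n * (2 * n + 2 * (c / t)) * s := by ring
    have h6 : 3 * n ^ 2 * s = n * (3 * n) * s := by ring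
    rw [h5, h6]
    exact Nat.mul_le_mul_right _ (Nat.mul_le_mul_left _ (by omega))
  · rw [Nat.add_sub_cancel]
    set s := t ^ n * e / (3 * n ^ 2) with hs
    set q := c / t with hq'
    have hnn : 0 < 3 * n ^ 2 := by positivity
    have h3 : t ^ n * e < 3 * n ^ 2 * (s + 1) := by
      have := Nat.lt_mul_div_succ (t ^ n * e) hnn
      simpa [hs] using this
    have htn : 1 ≤ t ^ n := Nat.one_le_pow _ _ ht
    -- the main estimate
    have h4 : 3 * n ^ 2 * (n * t * t ^ n) ≤ 3 * n ^ 2 * (s * m) := by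
      zify at *
      have g1 : (t : ℤ) ^ n * (3 * n ^ 3 * t + 3 * n ^ 2 * m) ≤ t ^ n * (e * m) :=
        mul_le_mul_of_nonneg_left h2 (by positivity)
      have g2 : (t : ℤ) ^ n * e * m ≤ 3 * n ^ 2 * (s + 1) * m :=
        mul_le_mul_of_nonneg_right h3.le (by positivity)
      have g3 : (3 * n ^ 2 * m : ℤ) * 1 ≤ (3 * n ^ 2 * m) * t ^ n :=
        mul_le_mul_of_nonneg_left htn (by positivity)
      nlinarith
    have h5 : n * t * t ^ n ≤ s * m := Nat.le_of_mul_le_mul_left h4 hnn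
    have h6 : 2 * (c + 1) ≤ n * t := by omega
    have h7 : t ^ n * (2 * (c + 1)) ≤ t ^ n * (n * t) := Nat.mul_le_mul_left _ h6
    have h8 : s * (3 * n ^ 2) ≤ s * m := Nat.mul_le_mul_left _ hm0
    have h9 : s * (n * (2 * q)) ≤ s * (n * n) := Nat.mul_le_mul_left _ (Nat.mul_le_mul_left _ hq)
    nlinarith
  · refine cle_choose n t m _ (cle_prod n t m c e hm h1 ?_)
    have h3 : n ^ 2 * t ≤ n ^ 3 * t := by
      refine Nat.mul_le_mul_right _ ?_
      exact Nat.pow_le_pow_right hn (by norm_num)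
    nlinarith

theorem t_CLE : S_CLE := by
  intro n hn
  refine ⟨100 * n ^ 4, ?_, ?_⟩
  · have : (1 : ℝ) ≤ n := by exact_mod_cast hn
    have := one_le_pow₀ this (n := 4)
    linarith
  intro m hm T hT t ht htT
  have hn' : (1 : ℝ) ≤ n := by exact_mod_cast hn
  have hm' : (1 : ℝ) ≤ m := by exact_mod_cast hm
  have ht' : (1 : ℝ) ≤ t := by exact_mod_cast ht
  have hmp : (0 : ℝ) < m := by linarith
  have hTm : (t : ℝ) / m ≤ T / m := div_le_div_of_nonneg_right htT hmp.le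
  have htm0 : 0 ≤ (t : ℝ) / m := by positivity
  have n4 : (1 : ℝ) ≤ (n : ℝ) ^ 4 := one_le_pow₀ hn'
  have key : 100 * (n : ℝ) ^ 4 * (1 + t / m) ≤ 100 * (n : ℝ) ^ 4 * (1 + T / m) :=
    mul_le_mul_of_nonneg_left (by linarith) (by positivity)
  by_cases hA : m < 6 * n ^ 3 ∨ t < 8 * n ^ 2 + 2 * n + 10
  · refine ⟨t * m, cle_low n t m ht hm, ?_⟩
    push_cast
    have h3 : (t : ℝ) * n / 2 ≤ 100 * (n : ℝ) ^ 4 * (1 + t / m) := by
      rcases hA with hA | hA
      · have h4 : (m : ℝ) < 6 * n ^ 3 := by exact_mod_cast hA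
        have h5 : (t : ℝ) = t / m * m := by field_simp
        have h6 : (t : ℝ) * n / 2 ≤ t / m * (6 * n ^ 3) * n / 2 := by
          have : (t : ℝ) / m * m ≤ t / m * (6 * n ^ 3) := mul_le_mul_of_nonneg_left h4.le htm0
          rw [← h5] at this
          have := mul_le_mul_of_nonneg_right this (by positivity : (0 : ℝ) ≤ n)
          linarith
        have h7 : (0 : ℝ) ≤ t / m * n ^ 4 := by positivity
        nlinarith
      · have h4 : (t : ℝ) < 8 * n ^ 2 + 2 * n + 10 := by exact_mod_cast hA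
        have h5 : (n : ℝ) ≤ n ^ 4 := by
          calc (n : ℝ) = n ^ 1 := (pow_one _).symm
            _ ≤ n ^ 4 := pow_le_pow_right₀ hn' (by norm_num)
        have h6 : (n : ℝ) ^ 2 ≤ n ^ 4 := pow_le_pow_right₀ hn' (by norm_num)
        have h7 : (n : ℝ) ^ 3 ≤ n ^ 4 := pow_le_pow_right₀ hn' (by norm_num)
        have h8 : (t : ℝ) * n ≤ (8 * n ^ 2 + 2 * n + 10) * n :=
          mul_le_mul_of_nonneg_right h4.le (by positivity)
        have h9 : 0 ≤ (n : ℝ) ^ 4 * (t / m) := by positivity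
        nlinarith
    nlinarith
  · push Not at hA
    obtain ⟨hA1, hA2⟩ := hA
    -- the choice of the parameters
    set E : ℕ := 3 * n ^ 3 * t / m + 1 + 3 * n ^ 2 with hE
    have hdiv : 3 * n ^ 3 * t < m * (3 * n ^ 3 * t / m + 1) := Nat.lt_mul_div_succ _ hm
    have hdiv2 : 3 * n ^ 3 * t / m * m ≤ 3 * n ^ 3 * t := Nat.div_mul_le_self _ _
    have hdiv3 : 2 * (3 * n ^ 3 * t / m) ≤ t := by
      have h3 : 2 * (3 * n ^ 3 * t / m) * m ≤ t * m := by
        have h4 : t * (6 * n ^ 3) ≤ t * m := Nat.mul_le_mul_left _ hA1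
        nlinarith
      exact Nat.le_of_mul_le_mul_right h3 hm
    have hEt : E + n + 3 ≤ n * t := by
      have h3 : t ≤ n * t := Nat.le_mul_of_pos_left t hn
      omega
    obtain ⟨c, e, hce, he1, he2⟩ : ∃ c e : ℕ, 2 * c + (n + 2) + e = n * t ∧ E ≤ e ∧ e ≤ E + 1 := by
      refine ⟨(n * t - (n + 2) - E) / 2, n * t - (n + 2) - 2 * ((n * t - (n + 2) - E) / 2),
        ?_, ?_, ?_⟩ <;> omega
    refine ⟨t * m + c + 1, cle_high n t m c e hn ht hm hce ?_ ?_, ?_⟩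
    · refine le_trans ?_ hA1
      have : n ^ 2 ≤ n ^ 3 := Nat.pow_le_pow_right hn (by norm_num)
      omega
    · have h3 : E * m ≤ e * m := Nat.mul_le_mul_right _ he1
      refine le_trans ?_ h3
      rw [hE]
      nlinarith
    · push_cast
      have h3 : (e : ℝ) ≤ 3 * n ^ 3 * t / m + 2 + 3 * n ^ 2 := by
        have h4 : (e : ℝ) ≤ E + 1 := by exact_mod_cast he2
        have h5 : ((3 * n ^ 3 * t / m : ℕ) : ℝ) ≤ 3 * n ^ 3 * t / m := by
          have := @Nat.cast_div_le ℝ _ _ _ (3 * n ^ 3 * t) m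
          push_cast at this
          exact this
        rw [hE] at h4
        push_cast at h4
        have h6 : ((3 * n ^ 3 * t / m : ℕ) : ℝ) = (((3 * n ^ 3 * t / m : ℕ)) : ℝ) := rfl
        linarith
      have h4 : (2 : ℝ) * c + (n + 2) + e = n * t := by exact_mod_cast hce
      have h5 : (n : ℝ) ≤ n ^ 4 := by
        calc (n : ℝ) = n ^ 1 := (pow_one _).symm
          _ ≤ n ^ 4 := pow_le_pow_right₀ hn' (by norm_num)
      have h6 : (n : ℝ) ^ 2 ≤ n ^ 4 := pow_le_pow_right₀ hn' (by norm_num)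
      have h7 : (n : ℝ) ^ 3 ≤ n ^ 4 := pow_le_pow_right₀ hn' (by norm_num)
      have h8 : (n : ℝ) ^ 3 * (t / m) ≤ n ^ 4 * (t / m) := mul_le_mul_of_nonneg_right h7 htm0
      have h9 : (3 : ℝ) * n ^ 3 * t / m = 3 * (n ^ 3 * (t / m)) := by ring
      rw [h9] at h3
      have h10 : 0 ≤ (n : ℝ) ^ 4 * (t / m) := by positivity
      nlinarith

end Pool.Agent.H729.BW
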